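import Pool.Agent.helper12.DD.Spec

set_option autoImplicit false

open Pool.Agent.helper49.Blk

namespace Pool.Agent.DD

theorem POS (hIRG : IRG_stmt) (hIND : IND_stmt) (hDVD : DVD_stmt) (hIRF : IRF_stmt) :
    POS_stmt := by
  intro p hp M A B _ _ _ _ χ₁ h1 χ₂ h2 hpos
  have : Fact p.Prime := ⟨hp⟩
  obtain ⟨ψ, ⟨hψ, hsb⟩, d, hd, hlt⟩ := hpos
  obtain ⟨⟨n, hn, hn1⟩, -⟩ := (hIRF B).2 χ₂ h2
  obtain ⟨⟨m, hm, hm1⟩, -⟩ := (hIRF A).2 ψ hψ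
  have hmd : m = d := by
    have h3 : (m : ℂ) = (d : ℂ) := by rw [← hm1, hd]
    exact_mod_cast h3
  have hd0 : d ≠ 0 := by omega
  have hn0 : n ≠ 0 := by omega
  have hdv : n ∣ Nat.card B := hDVD B χ₂ h2 n hn1
  have hA0 : Nat.card A ≠ 0 := Nat.card_pos.ne'
  have hB0 : Nat.card B ≠ 0 := Nat.card_pos.ne'
  refine ⟨ot ψ χ₂, ⟨(hIRG A B _).2 ⟨ψ, hψ, χ₂, h2, rfl⟩, ?_⟩, d * n, ?_, ?_⟩
  · refine ((hIND M A B χ₁ h1 χ₂ h2).2 ψ hψ χ₂ h2).2 ⟨hsb, ?_⟩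
    intro g
    exact ⟨0, M.zero_mem, by simp⟩
  · unfold ot
    simp [hd, hn1]
  · rw [padicValNat.mul hd0 hn0, Nat.card_prod, padicValNat.mul hA0 hB0]
    have h3 : padicValNat p n ≤ padicValNat p (Nat.card B) :=
      (padicValNat_dvd_iff_le hB0).1 ((pow_padicValNat_dvd).trans hdv)
    omega

end Pool.Agent.DD
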